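import Pool.Agent.helper34.DT.Spec

namespace Pool.Agent.HC.DT

open Pool.Agent.HC

noncomputable section

lemma AJ_pow_deriv (a b : ℕ) :
    HasDerivAt (fun t : ℝ => Real.cos t ^ a * Real.sin t ^ b) (if b = 1 then 1 else 0) 0 := by
  have h1 := (Real.hasDerivAt_cos 0).pow a
  have h2 := (Real.hasDerivAt_sin 0).pow b
  have h := h1.mul h2
  have e : (a * Real.cos 0 ^ (a - 1) * -Real.sin 0) * Real.sin 0 ^ b +
      Real.cos 0 ^ a * (b * Real.sin 0 ^ (b - 1) * Real.cos 0) = if b = 1 then 1 else 0 := by
    rw [Real.sin_zero, Real.cos_zero]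
    rcases b with _ | _ | b
    · simp
    · simp
    · simp
  rw [← e]
  exact h

lemma AJ_expand {V : Type} [AddCommGroup V] [Module ℝ V] {n : ℕ} (η : V [⋀^Fin n]→ₗ[ℝ] ℝ)
    (v u : Fin n → V) (c s : ℝ) :
    η (fun j => c • v j + s • u j) =
      ∑ S : Finset (Fin n), c ^ S.card * s ^ Sᶜ.card * η (S.piecewise v u) := by
  have h1 : η (fun j => c • v j + s • u j) = ∑ S : Finset (Fin n),
      η (S.piecewise (fun j => c • v j) (fun j => s • u j)) :=
    MultilinearMap.map_add_univ η.toMultilinearMap (fun j => c • v j) (fun j => s • u j)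
  rw [h1]
  refine Finset.sum_congr rfl fun S _ => ?_
  have h2 : S.piecewise (fun j => c • v j) (fun j => s • u j) =
      fun j => (if j ∈ S then c else s) • (S.piecewise v u) j := by
    funext j
    by_cases hj : j ∈ S
    · simp [Finset.piecewise, hj]
    · simp [Finset.piecewise, hj]
  have h3 : η (fun j => (if j ∈ S then c else s) • (S.piecewise v u) j) =
      (∏ j, (if j ∈ S then c else s)) • η (S.piecewise v u) :=
    MultilinearMap.map_smul_univ η.toMultilinearMap (fun j => if j ∈ S then c else s)
      (S.piecewise v u)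
  have h4 : (∏ j, (if j ∈ S then c else s)) = c ^ S.card * s ^ Sᶜ.card := by
    rw [← Finset.prod_mul_prod_compl S]
    congr 1
    · rw [← Finset.prod_const]
      exact Finset.prod_congr rfl fun j hj => if_pos hj
    · rw [← Finset.prod_const]
      exact Finset.prod_congr rfl fun j hj => if_neg (Finset.mem_compl.1 hj)
  rw [h2, h3, h4, smul_eq_mul]

lemma AJ_deriv {V : Type} [AddCommGroup V] [Module ℝ V] {n : ℕ} (η : V [⋀^Fin n]→ₗ[ℝ] ℝ)
    (v u : Fin n → V) :
    HasDerivAt (fun t : ℝ => η (fun j => Real.cos t • v j + Real.sin t • u j))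
      (∑ j, η (Function.update v j (u j))) 0 := by
  have h1 : (fun t : ℝ => η (fun j => Real.cos t • v j + Real.sin t • u j)) =
      fun t : ℝ => ∑ S : Finset (Fin n),
        Real.cos t ^ S.card * Real.sin t ^ Sᶜ.card * η (S.piecewise v u) := by
    funext t
    exact AJ_expand η v u _ _
  have h2 : HasDerivAt (fun t : ℝ => ∑ S : Finset (Fin n),
        Real.cos t ^ S.card * Real.sin t ^ Sᶜ.card * η (S.piecewise v u))
      (∑ S : Finset (Fin n), (if Sᶜ.card = 1 then 1 else 0) * η (S.piecewise v u)) 0 := by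
    exact HasDerivAt.fun_sum fun S _ => (AJ_pow_deriv S.card Sᶜ.card).mul_const _
  have h3 : (∑ S : Finset (Fin n), (if Sᶜ.card = 1 then (1 : ℝ) else 0) * η (S.piecewise v u)) =
      ∑ j, η (Function.update v j (u j)) := by
    have h4 : ∀ S : Finset (Fin n), (if Sᶜ.card = 1 then (1 : ℝ) else 0) * η (S.piecewise v u) =
        if Sᶜ.card = 1 then η (S.piecewise v u) else 0 := by
      intro S
      split_ifs
      · rw [one_mul]
      · rw [zero_mul]
    rw [Finset.sum_congr rfl fun S _ => h4 S, ← Finset.sum_filter]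
    symm
    refine Finset.sum_bij (fun j _ => ({j} : Finset (Fin n))ᶜ) ?_ ?_ ?_ ?_
    · intro j _
      rw [Finset.mem_filter]
      exact ⟨Finset.mem_univ _, by rw [compl_compl, Finset.card_singleton]⟩
    · intro i _ j _ hij
      have h5 := compl_injective hij
      exact Finset.singleton_injective h5
    · intro S hS
      rw [Finset.mem_filter] at hS
      obtain ⟨j, hj⟩ := Finset.card_eq_one.1 hS.2
      exact ⟨j, Finset.mem_univ _, by rw [← hj, compl_compl]⟩
    · intro j _
      congr 1
      funext i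
      by_cases hi : i = j
      · subst hi
        simp [Finset.piecewise]
      · simp [Finset.piecewise, hi]
  rw [h1, ← h3]
  exact h2

lemma AJ_rot {V : Type} [NormedAddCommGroup V] [NormedSpace ℂ V] (t : ℝ) (w : V) :
    rot t w = Real.cos t • w + Real.sin t • (Complex.I • w) := by
  have h1 : rot t w = Complex.exp (t * Complex.I) • w := rfl
  rw [h1, Complex.exp_mul_I, ← Complex.ofReal_cos, ← Complex.ofReal_sin, add_smul, mul_smul]
  rfl

theorem AJ (hAE : AE_stmt) : AJ_stmt := by
  intro W _ _ _ Lam ψ hψ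
  refine ⟨?_, ?_⟩
  · intro v w
    have h1 := hψ.inv (Complex.I • v) w
    rw [JJ_apply, JJ_apply, ← h1, smul_smul, Complex.I_mul_I, neg_smul, one_smul, map_neg,
      LinearMap.neg_apply, neg_add_cancel]
  · intro k a ξ hξ η
    have : FiniteDimensional ℝ W := FiniteDimensional.complexToReal W
    obtain ⟨m, r, v, -, hr⟩ := hAE (Fin k → W) Set.univ Submodule.span_univ (2 * a) ξ
    have h1 : ∀ t : ℝ, ∑ i, r i * η (fun j => Real.cos t • v i j +
        Real.sin t • (Complex.I • v i j)) = ξ η := by
      intro t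
      rw [← hξ.type t η, hr]
      refine Finset.sum_congr rfl fun i _ => ?_
      congr 1
      rw [AlternatingMap.compLinearMap_apply]
      congr 1
      funext j
      exact (AJ_rot t (v i j)).symm
    have h2 : HasDerivAt (fun t : ℝ => ∑ i, r i * η (fun j => Real.cos t • v i j +
        Real.sin t • (Complex.I • v i j)))
        (∑ i, r i * ∑ j, η (Function.update (v i) j (Complex.I • v i j))) 0 :=
      HasDerivAt.fun_sum fun i _ => (AJ_deriv η (v i) (fun j => Complex.I • v i j)).const_mul _
    have h3 : (fun t : ℝ => ∑ i, r i * η (fun j => Real.cos t • v i j +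
        Real.sin t • (Complex.I • v i j))) = fun _ => ξ η := funext h1
    rw [h3] at h2
    have h4 := h2.unique (hasDerivAt_const (0 : ℝ) (ξ η))
    rw [hr, ← h4]
    refine Finset.sum_congr rfl fun i _ => ?_
    congr 1

end

end Pool.Agent.HC.DT
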